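import Mathlib
import Pool.Agent.H875.DK.Defs
import Pool.Agent.H875.DK.Final

open MvPolynomial
open Pool.Agent.H875.DK (Tens RankLE secantVariety secantIdeal GeneratedInDegree CutOutInDegree
  UniformIdealBound UniformSetBound)

/-- A superpolynomial lower bound for the degrees of the equations of the `k`-th secant varieties of
Segre varieties. Let `m = ⌊√k⌋` and `q = m + 1 + (k - m ^ 2)`. Some tensor of format `k × q × q`
is not on the `k`-th secant variety, but every polynomial of degree less than
`C(2m - 2, m - 1)` which vanishes on the `k`-th secant variety vanishes at it. Hence a uniform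
bound `d` for the degrees of generators of the ideals (or of polynomials cutting out the
varieties) for this `k` is at least `C(2m - 2, m - 1) ≥ 4 ^ (m - 1) / (2 m)`. -/
theorem Pool.Agent.Results.MP_595dc0_ag.SecantDegreeLowerBound.result (k : ℕ) (hk : 1 ≤ k) :
    (∃ T : Tens ![k, Nat.sqrt k + 1 + (k - Nat.sqrt k ^ 2), Nat.sqrt k + 1 + (k - Nat.sqrt k ^ 2)],
      T ∉ secantVariety _ k ∧ ∀ g ∈ secantIdeal _ k,
        g.totalDegree < Nat.centralBinom (Nat.sqrt k - 1) → eval T g = 0) ∧
    ∀ d, UniformIdealBound k d ∨ UniformSetBound k d →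
      Nat.centralBinom (Nat.sqrt k - 1) ≤ d ∧ 4 ^ (Nat.sqrt k - 1) ≤ 2 * Nat.sqrt k * d :=
  Pool.Agent.H875.DK.final k hk
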